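import Mathlib
import Pool.Agent.H47.Meadow

namespace Pool.Agent.Results.MP_faa006_lc.NotDefinable
open Pool.Agent.H47.Meadow

abbrev D : Type := PowerSeries ℚ

noncomputable def S : Subring (D × D) :=
  RingHom.eqLocus ((PowerSeries.constantCoeff (R := ℚ)).comp (RingHom.fst D D))
    ((PowerSeries.constantCoeff (R := ℚ)).comp (RingHom.snd D D))

noncomputable def f1 : S →+* D := (RingHom.fst D D).comp S.subtype
noncomputable def f2 : S →+* D := (RingHom.snd D D).comp S.subtype

lemma hcc (x : S) : PowerSeries.constantCoeff (f1 x) = PowerSeries.constantCoeff (f2 x) := x.2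

lemma ext12 {x y : S} (h1 : f1 x = f1 y) (h2 : f2 x = f2 y) : x = y :=
  Subtype.ext (Prod.ext h1 h2)

lemma unit_of (x : S) (h : PowerSeries.constantCoeff (f1 x) ≠ 0) : IsUnit x := by
  have h' : PowerSeries.constantCoeff (f2 x) ≠ 0 := hcc x ▸ h
  have m : ((f1 x)⁻¹, (f2 x)⁻¹) ∈ S := by
    change PowerSeries.constantCoeff (f1 x)⁻¹ = PowerSeries.constantCoeff (f2 x)⁻¹
    rw [PowerSeries.constantCoeff_inv, PowerSeries.constantCoeff_inv, hcc]
  refine IsUnit.of_mul_eq_one ⟨_, m⟩ (ext12 ?_ ?_)
  · rw [map_mul, map_one]; exact PowerSeries.mul_inv_cancel _ h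
  · rw [map_mul, map_one]; exact PowerSeries.mul_inv_cancel _ h'

lemma u1 (x : S) (h : IsUnit (f1 x)) : IsUnit x :=
  unit_of x (PowerSeries.isUnit_iff_constantCoeff.1 h).ne_zero

lemma u2 (x : S) (h : IsUnit (f2 x)) : IsUnit x :=
  unit_of x (hcc x ▸ (PowerSeries.isUnit_iff_constantCoeff.1 h).ne_zero)

lemma eval_map {R R' : Type} [CommRing R] [CommRing R'] (f : R →+* R')
    (hf : ∀ x, IsUnit (f x) → IsUnit x) (v : ℕ → Option R) (t : Tm) :
    t.eval (enl R') (fun n => (v n).map f) = (t.eval (enl R) v).map f := by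
  induction t with
  | var n => rfl
  | zero => simp [Tm.eval, enl]
  | one => simp [Tm.eval, enl]
  | bot => simp [Tm.eval, enl]
  | neg s ih =>
    simp only [Tm.eval, ih]
    rcases s.eval (enl R) v with _ | a <;> simp [enl]
  | add s t ih1 ih2 =>
    simp only [Tm.eval, ih1, ih2]
    rcases s.eval (enl R) v with _ | a <;> rcases t.eval (enl R) v with _ | b <;> simp [enl]
  | mul s t ih1 ih2 =>
    simp only [Tm.eval, ih1, ih2]
    rcases s.eval (enl R) v with _ | a <;> rcases t.eval (enl R) v with _ | b <;> simp [enl]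
  | div s t ih1 ih2 =>
    simp only [Tm.eval, ih1, ih2]
    rcases s.eval (enl R) v with _ | a <;> rcases t.eval (enl R) v with _ | b <;>
      simp only [enl, Option.map_none, Option.map_some, Option.bind_none, Option.bind_some]
    by_cases hb : IsUnit b
    · obtain ⟨w, rfl⟩ := hb
      have : IsUnit (f w) := w.isUnit.map f
      rw [if_pos this, if_pos w.isUnit, Option.map_some, map_mul, Ring.inverse_unit]
      congr 2
      have e : f w = ((Units.map (f : R →* R') w : R'ˣ) : R') := rfl
      rw [e, Ring.inverse_unit]; rfl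
    · rw [if_neg hb, if_neg (fun h => hb (hf b h))]; rfl

theorem result (T : Set CondEq)
    (hT : ∀ φ ∈ T, ∀ (B : Type) [CommRing B] [IsDomain B], (enl B).Sat φ) :
    ∃ (R : Type) (_ : CommRing R), (∀ φ ∈ T, (enl R).Sat φ) ∧
      ∀ (B : Type) [CommRing B] [NoZeroDivisors B] (e : Option R ≃ Option B),
        ¬ (e (enl R).zero = (enl B).zero ∧ e (enl R).bot = (enl B).bot ∧
          ∀ x y, e ((enl R).mul x y) = (enl B).mul (e x) (e y)) := by
  refine ⟨S, inferInstance, ?_, ?_⟩
  · intro φ hφ v hv
    have k1 := hT φ hφ D (fun n => (v n).map f1) (fun e he => by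
      rw [eval_map f1 u1, eval_map f1 u1, hv e he])
    have k2 := hT φ hφ D (fun n => (v n).map f2) (fun e he => by
      rw [eval_map f2 u2, eval_map f2 u2, hv e he])
    rw [eval_map f1 u1, eval_map f1 u1] at k1
    rw [eval_map f2 u2, eval_map f2 u2] at k2
    revert k1 k2
    rcases φ.concl.1.eval (enl S) v with _ | a <;> rcases φ.concl.2.eval (enl S) v with _ | b <;>
      simp only [Option.map_none, Option.map_some, Option.some.injEq, reduceCtorEq,
        IsEmpty.forall_iff, implies_true]
    exact ext12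
  · rintro B _ _ e ⟨h0, hb, hm⟩
    have m1 : ((PowerSeries.X, 0) : D × D) ∈ S := by
      change PowerSeries.constantCoeff (PowerSeries.X : D) = PowerSeries.constantCoeff (0 : D)
      simp
    have m2 : ((0, PowerSeries.X) : D × D) ∈ S := by
      change PowerSeries.constantCoeff (0 : D) = PowerSeries.constantCoeff (PowerSeries.X : D)
      simp
    set x : S := ⟨_, m1⟩ with hx
    set y : S := ⟨_, m2⟩ with hy
    have hxy : x * y = 0 := Subtype.ext (by simp [hx, hy])
    have hx0 : x ≠ 0 := fun h => PowerSeries.X_ne_zero (congrArg (fun z : S => z.1.1) h)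
    have hy0 : y ≠ 0 := fun h => PowerSeries.X_ne_zero (congrArg (fun z : S => z.1.2) h)
    have h0' : e (some 0) = some 0 := h0
    have hb' : e none = none := hb
    have key : ∀ z : S, z ≠ 0 → ∃ b : B, b ≠ 0 ∧ e (some z) = some b := by
      intro z hz
      rcases h : e (some z) with _ | b
      · rw [← hb'] at h; exact absurd (e.injective h) (by simp)
      · refine ⟨b, ?_, rfl⟩
        rintro rfl
        rw [← h0'] at h
        exact hz (Option.some.inj (e.injective h))
    obtain ⟨a, ha, ha'⟩ := key x hx0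
    obtain ⟨b, hb0, hb''⟩ := key y hy0
    have := hm (some x) (some y)
    rw [ha', hb''] at this
    have e1 : (enl S).mul (some x) (some y) = some 0 := by rw [← hxy]; rfl
    have e2 : (enl B).mul (some a) (some b) = some (a * b) := rfl
    rw [e1, e2, h0'] at this
    exact mul_ne_zero ha hb0 (Option.some.inj this).symm

end Pool.Agent.Results.MP_faa006_lc.NotDefinable
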